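import Pool.Agent.KACG.Hill

/-!
# Squad KACG, row H_REG: regularity of weak solutions (Fourier series)
-/

open scoped ComplexConjugate ContDiff Real
open MeasureTheory intervalIntegral

noncomputable section

namespace Pool.Agent.KACG.H88

/-- a continuous periodic function with vanishing Fourier coefficients is zero -/
theorem eq_zero_of_coeff {L : ℝ} (hL : 0 < L) (f : ℝ → ℂ) (hf : Continuous f)
    (hp : Function.Periodic f L)
    (h : ∀ k : ℤ, ∫ s in (0 : ℝ)..L,
      Complex.exp (-(2 * π * Complex.I * k * s / L)) * f s = 0) (s : ℝ) : f s = 0 := by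
  have : Fact (0 < L) := ⟨hL⟩
  let F : C(AddCircle L, ℂ) := ⟨hp.lift, hf.quotient_liftOn' _⟩
  have h0 : ∀ k : ℤ, fourierCoeff (F : AddCircle L → ℂ) k = 0 := by
    intro k
    rw [fourierCoeff_eq_intervalIntegral (F : AddCircle L → ℂ) k 0, zero_add]
    have h1 : ∀ x : ℝ, (fourier (-k) (x : AddCircle L)) • F (x : AddCircle L) =
        Complex.exp (-(2 * π * Complex.I * k * x / L)) * f x := by
      intro x
      have h2 : F (x : AddCircle L) = f x := rfl
      rw [fourier_coe_apply, h2, smul_eq_mul]
      congr 2
      push_cast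
      ring
    simp only [h1]
    rw [h k, smul_zero]
  have h1 := has_pointwise_sum_fourier_series_of_summable (f := F)
    (by rw [show fourierCoeff (F : AddCircle L → ℂ) = fun _ => 0 from funext h0]
        exact summable_zero) (s : AddCircle L)
  have h2 : F (s : AddCircle L) = f s := rfl
  rw [h2] at h1
  have h3 : HasSum (fun i : ℤ => fourierCoeff (F : AddCircle L → ℂ) i •
      (fourier i (s : AddCircle L) : ℂ)) 0 := by
    simp only [h0, zero_smul]
    exact hasSum_zero
  exact h1.unique h3

/-- the frequency -/
def bk (L b : ℝ) (k : ℤ) : ℝ := b + 2 * π * k / L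

/-- the test function -/
def ek (L b : ℝ) (k : ℤ) (s : ℝ) : ℂ := Complex.exp (Complex.I * bk L b k * s)

theorem ek_deriv (L b : ℝ) (k : ℤ) (s : ℝ) :
    HasDerivAt (ek L b k) (Complex.I * bk L b k * ek L b k s) s := by
  unfold ek
  have h1 : HasDerivAt (fun s : ℝ => Complex.I * bk L b k * (s : ℂ))
      (Complex.I * bk L b k * 1) s := (Complex.ofRealCLM.hasDerivAt).const_mul _
  have h2 := h1.cexp
  rw [mul_one, mul_comm (Complex.exp _)] at h2
  exact h2

theorem ek_qp {L : ℝ} (hL : 0 < L) (b : ℝ) (k : ℤ) : QP L b (ek L b k) := by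
  constructor
  · unfold ek
    exact Complex.contDiff_exp.comp (contDiff_const.mul Complex.ofRealCLM.contDiff)
  · intro s
    unfold ek
    rw [← Complex.exp_add]
    have h1 : Complex.I * (bk L b k : ℂ) * ((s + L : ℝ) : ℂ) =
        (Complex.I * ((b * L : ℝ) : ℂ) + Complex.I * bk L b k * s) + k * (2 * π * Complex.I) := by
      have hL' : (L : ℂ) ≠ 0 := by exact_mod_cast hL.ne'
      unfold bk
      push_cast
      field_simp
      ring
    rw [h1]
    exact Complex.exp_periodic.int_mul k _

/-- the conjugate of the test function -/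
def ck (L b : ℝ) (k : ℤ) (s : ℝ) : ℂ := Complex.exp (-(Complex.I * bk L b k * s))

theorem ck_deriv (L b : ℝ) (k : ℤ) (s : ℝ) :
    HasDerivAt (ck L b k) (-(Complex.I * bk L b k) * ck L b k s) s := by
  unfold ck
  have h1 : HasDerivAt (fun s : ℝ => -(Complex.I * bk L b k * (s : ℂ)))
      (-(Complex.I * bk L b k * 1)) s := ((Complex.ofRealCLM.hasDerivAt).const_mul _).neg
  have h2 := h1.cexp
  rw [mul_one, mul_comm (Complex.exp _)] at h2
  exact h2

theorem conj_ek (L b : ℝ) (k : ℤ) (s : ℝ) : conj (ek L b k s) = ck L b k s := by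
  unfold ek ck
  rw [← Complex.exp_conj]
  congr 1
  simp

theorem ck_add {L : ℝ} (hL : 0 < L) (b : ℝ) (k : ℤ) (s : ℝ) :
    Complex.exp (Complex.I * (b * L : ℝ)) * ck L b k (s + L) = ck L b k s := by
  have h1 := (ek_qp hL b k).2 s
  have h2 : ek L b k (s + L) * ck L b k (s + L) = 1 := by
    unfold ek ck
    rw [← Complex.exp_add, add_neg_cancel, Complex.exp_zero]
  have h3 : ek L b k s * ck L b k s = 1 := by
    unfold ek ck
    rw [← Complex.exp_add, add_neg_cancel, Complex.exp_zero]
  have h4 : ek L b k s ≠ 0 := Complex.exp_ne_zero _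
  apply mul_left_cancel₀ h4
  rw [h3, ← h2, h1]
  ring

/-- the weak equation for the test function -/
theorem weak_ck {L : ℝ} {V : ℝ → ℝ} {b lm : ℝ} (hL : 0 < L) {v : ℝ → ℂ}
    (hw : ∀ φ, QP L b φ → ∫ s in (0 : ℝ)..L,
      v s * conj (- deriv (deriv φ) s + (((V s : ℝ) : ℂ) - lm) * φ s) = 0) (k : ℤ) :
    ∫ s in (0 : ℝ)..L, v s * (((bk L b k : ℂ) ^ 2 + ((V s : ℂ) - lm)) * ck L b k s) = 0 := by
  have h1 := hw _ (ek_qp hL b k)
  rw [← h1]
  refine intervalIntegral.integral_congr fun s _ => ?_
  have d1 : deriv (ek L b k) = fun s => Complex.I * bk L b k * ek L b k s :=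
    funext fun s => (ek_deriv L b k s).deriv
  have d2 : deriv (deriv (ek L b k)) s =
      Complex.I * bk L b k * (Complex.I * bk L b k * ek L b k s) := by
    rw [d1]
    exact ((ek_deriv L b k s).const_mul _).deriv
  have h3 : -deriv (deriv (ek L b k)) s + ((V s : ℂ) - lm) * ek L b k s =
      (((bk L b k) ^ 2 + (V s - lm) : ℝ) : ℂ) * ek L b k s := by
    rw [d2]
    push_cast
    linear_combination (-(bk L b k : ℂ) ^ 2 * ek L b k s) * Complex.I_mul_I
  rw [h3, map_mul, Complex.conj_ofReal, conj_ek]
  push_cast
  ring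

theorem reg : RegStmt := by
  intro L V b lm hL hV hVp v hv hvp hweak
  obtain ⟨z, hz⟩ : ∃ z : ℂ, z = Complex.exp (Complex.I * (b * L : ℝ)) := ⟨_, rfl⟩
  rw [← hz] at hvp
  have hz0 : z ≠ 0 := by rw [hz]; exact Complex.exp_ne_zero _
  obtain ⟨g, hg⟩ : ∃ g : ℝ → ℂ, g = fun s => ((V s : ℂ) - lm) * v s := ⟨_, rfl⟩
  have hgc : Continuous g := by
    rw [hg]
    exact ((Complex.continuous_ofReal.comp hV.continuous).sub continuous_const).mul hv
  have hgp : ∀ s, g (s + L) = z * g s := by
    intro s
    rw [hg]
    simp only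
    rw [hVp s, hvp s]
    ring
  -- primitives
  obtain ⟨G, hG⟩ : ∃ G : ℝ → ℂ, G = fun s => ∫ t in (0 : ℝ)..s, g t := ⟨_, rfl⟩
  have hGd : ∀ s, HasDerivAt G (g s) s := by
    intro s
    rw [hG]
    exact intervalIntegral.integral_hasDerivAt_right (hgc.intervalIntegrable _ _)
      hgc.aestronglyMeasurable.stronglyMeasurableAtFilter hgc.continuousAt
  have hG0 : G 0 = 0 := by rw [hG]; simp
  have hGc : Continuous G := continuous_iff_continuousAt.2 fun s => (hGd s).continuousAt
  obtain ⟨P, hP⟩ : ∃ P : ℝ → ℂ, P = fun s => ∫ t in (0 : ℝ)..s, G t := ⟨_, rfl⟩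
  have hPd : ∀ s, HasDerivAt P (G s) s := by
    intro s
    rw [hP]
    exact intervalIntegral.integral_hasDerivAt_right (hGc.intervalIntegrable _ _)
      hGc.aestronglyMeasurable.stronglyMeasurableAtFilter hGc.continuousAt
  have hP0 : P 0 = 0 := by rw [hP]; simp
  have hPc : Continuous P := continuous_iff_continuousAt.2 fun s => (hPd s).continuousAt
  have hL' : (L : ℂ) ≠ 0 := by exact_mod_cast hL.ne'
  -- a helper: constant functions
  have hconst : ∀ f : ℝ → ℂ, (∀ s, HasDerivAt f 0 s) → ∀ s, f s = f 0 := by
    intro f hf s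
    exact is_const_of_deriv_eq_zero (fun s => (hf s).differentiableAt) (fun s => (hf s).deriv) s 0
  have hGL : ∀ s, G (s + L) = G L + z * G s := by
    intro s
    have h1 : ∀ s, HasDerivAt (fun s => G (s + L) - z * G s) 0 s := by
      intro s
      have h2 := ((hGd (s + L)).comp_add_const s L).sub ((hGd s).const_mul z)
      rw [hgp, sub_self] at h2
      exact h2
    have h3 := hconst _ h1 s
    simp only [zero_add, hG0, mul_zero, sub_zero] at h3
    linear_combination h3
  -- choice of the constants
  obtain ⟨β, α, hβ, hα, hmean⟩ : ∃ β α : ℂ, G L + β = z * β ∧ P L + β * L + α = z * α ∧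
      (z = 1 → ∫ s in (0 : ℝ)..L, (v s - (P s + β * s + α)) = 0) := by
    by_cases h1 : z = 1
    · have hGL0 : G L = 0 := by
        have h2 := hweak (fun _ => 1) ⟨contDiff_const, fun s => by rw [← hz, h1, mul_one]⟩
        rw [hG]
        simp only
        rw [← h2]
        refine intervalIntegral.integral_congr fun s _ => ?_
        rw [hg]
        have h3 : deriv (deriv (fun _ : ℝ => (1 : ℂ))) s = 0 := by simp
        rw [h3, neg_zero, zero_add, mul_one, map_sub, Complex.conj_ofReal, Complex.conj_ofReal]
        ring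
      refine ⟨-(P L) / L, (L : ℂ)⁻¹ * ∫ s in (0 : ℝ)..L, (v s - (P s + -(P L) / L * s)), ?_, ?_,
        ?_⟩
      · rw [hGL0, h1]; ring
      · rw [h1]
        field_simp
        ring
      · intro _
        obtain ⟨I, hI⟩ : ∃ I : ℂ, I = ∫ s in (0 : ℝ)..L, (v s - (P s + -(P L) / L * s)) :=
          ⟨_, rfl⟩
        rw [← hI]
        have h3 : ∀ s : ℝ, v s - (P s + -(P L) / L * s + (L : ℂ)⁻¹ * I) =
            (v s - (P s + -(P L) / L * s)) - (L : ℂ)⁻¹ * I := fun s => by ring
        simp only [h3]
        rw [intervalIntegral.integral_sub, ← hI, intervalIntegral.integral_const, sub_zero,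
          Complex.real_smul, mul_inv_cancel_left₀ hL', sub_self]
        · exact ((hv.sub (hPc.add (continuous_const.mul Complex.continuous_ofReal)))).intervalIntegrable
            _ _
        · exact continuous_const.intervalIntegrable _ _
    · have h2 : z - 1 ≠ 0 := sub_ne_zero.2 h1
      refine ⟨G L / (z - 1), (P L + G L / (z - 1) * L) / (z - 1), ?_, ?_, fun h => absurd h h1⟩
      · field_simp
        ring
      · field_simp
        ring
  obtain ⟨w1, hw1⟩ : ∃ w1 : ℝ → ℂ, w1 = fun s => G s + β := ⟨_, rfl⟩
  obtain ⟨w, hw⟩ : ∃ w : ℝ → ℂ, w = fun s => P s + β * s + α := ⟨_, rfl⟩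
  have hw1d : ∀ s, HasDerivAt w1 (g s) s := by
    intro s
    rw [hw1]
    exact (hGd s).add_const β
  have hwd : ∀ s, HasDerivAt w (w1 s) s := by
    intro s
    rw [hw, hw1]
    have h1 : HasDerivAt (fun s : ℝ => β * (s : ℂ)) (β * 1) s :=
      (Complex.ofRealCLM.hasDerivAt).const_mul _
    rw [mul_one] at h1
    exact ((hPd s).add h1).add_const α
  have hw1p : ∀ s, w1 (s + L) = z * w1 s := by
    intro s
    rw [hw1]
    simp only
    rw [hGL]
    linear_combination hβ
  have hwp : ∀ s, w (s + L) = z * w s := by
    intro s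
    have h1 : ∀ s, HasDerivAt (fun s => w (s + L) - z * w s) 0 s := by
      intro s
      have h2 := ((hwd (s + L)).comp_add_const s L).sub ((hwd s).const_mul z)
      rw [hw1p, sub_self] at h2
      exact h2
    have h3 := hconst _ h1 s
    have h4 : w (0 + L) - z * w 0 = 0 := by
      rw [hw]
      simp only [zero_add, hP0]
      push_cast
      linear_combination hα
    rw [h4] at h3
    linear_combination h3
  have hwc : Continuous w := continuous_iff_continuousAt.2 fun s => (hwd s).continuousAt
  have hw1c : Continuous w1 := continuous_iff_continuousAt.2 fun s => (hw1d s).continuousAt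
  have hckc : ∀ k, Continuous (ck L b k) := fun k =>
    continuous_iff_continuousAt.2 fun s => (ck_deriv L b k s).continuousAt
  -- Fourier coefficients of the difference
  have hcoef : ∀ k : ℤ, ∫ s in (0 : ℝ)..L, (v s - w s) * ck L b k s = 0 := by
    intro k
    by_cases hk : bk L b k = 0
    · have hck : ∀ s, ck L b k s = 1 := by
        intro s
        unfold ck
        rw [hk]
        simp
      have hz1 : z = 1 := by
        have h1 := ck_add hL b k 0
        rw [hck, hck, mul_one, ← hz] at h1
        exact h1
      simp only [hck, mul_one]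
      rw [hw]
      exact hmean hz1
    · have h1 := weak_ck hL hweak k
      have h2 : ∫ s in (0 : ℝ)..L, (g s + (bk L b k : ℂ) ^ 2 * w s) * ck L b k s = 0 := by
        have h3 : ∀ s, HasDerivAt (fun s => w1 s * ck L b k s +
            Complex.I * bk L b k * (w s * ck L b k s))
            ((g s + (bk L b k : ℂ) ^ 2 * w s) * ck L b k s) s := by
          intro s
          have h4 := ((hw1d s).mul (ck_deriv L b k s)).add
            (((hwd s).mul (ck_deriv L b k s)).const_mul (Complex.I * bk L b k))
          refine h4.congr_deriv ?_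
          linear_combination (-(bk L b k : ℂ) ^ 2 * w s * ck L b k s) * Complex.I_mul_I
        rw [intervalIntegral.integral_eq_sub_of_hasDerivAt (fun s _ => h3 s)]
        · have h5 := ck_add hL b k 0
          rw [zero_add, ← hz] at h5
          have h6 := hw1p 0
          have h7 := hwp 0
          rw [zero_add] at h6 h7
          rw [h6, h7]
          linear_combination (w1 0 + Complex.I * bk L b k * w 0) * h5
        · exact ((hgc.add (continuous_const.mul hwc)).mul (hckc k)).intervalIntegrable _ _
      have h3 : ∫ s in (0 : ℝ)..L, (bk L b k : ℂ) ^ 2 * ((v s - w s) * ck L b k s) = 0 := by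
        have h4 : ∀ s : ℝ, (bk L b k : ℂ) ^ 2 * ((v s - w s) * ck L b k s) =
            v s * (((bk L b k : ℂ) ^ 2 + ((V s : ℂ) - lm)) * ck L b k s) -
              (g s + (bk L b k : ℂ) ^ 2 * w s) * ck L b k s := by
          intro s
          rw [hg]
          ring
        simp only [h4]
        rw [intervalIntegral.integral_sub, h1, h2, sub_zero]
        · exact (hv.mul ((continuous_const.add ((Complex.continuous_ofReal.comp
            hV.continuous).sub continuous_const)).mul (hckc k))).intervalIntegrable _ _
        · exact ((hgc.add (continuous_const.mul hwc)).mul (hckc k)).intervalIntegrable _ _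
      rw [intervalIntegral.integral_const_mul] at h3
      rcases mul_eq_zero.1 h3 with h4 | h4
      · exfalso
        apply hk
        have h5 : (bk L b k : ℂ) = 0 := by
          exact pow_eq_zero_iff (two_ne_zero) |>.1 h4
        exact_mod_cast h5
      · exact h4
  have hvw : ∀ s, v s = w s := by
    intro s
    have h1 := eq_zero_of_coeff hL (fun s => ck L b 0 s * (v s - w s))
      ((hckc 0).mul (hv.sub hwc)) (by
        intro s
        simp only
        rw [hvp, hwp, ← ck_add hL b 0 s, ← hz]
        ring) (by
        intro k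
        rw [← hcoef k]
        refine intervalIntegral.integral_congr fun s _ => ?_
        have h2 : Complex.exp (-(2 * π * Complex.I * k * s / L)) * ck L b 0 s = ck L b k s := by
          unfold ck bk
          rw [← Complex.exp_add]
          congr 1
          push_cast
          field_simp
          ring
        rw [← mul_assoc, h2]
        ring) s
    have h2 : ck L b 0 s ≠ 0 := Complex.exp_ne_zero _
    rcases mul_eq_zero.1 h1 with h3 | h3
    · exact absurd h3 h2
    · exact sub_eq_zero.1 h3
  have hvw' : v = w := funext hvw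
  have hvd : ∀ s, HasDerivAt v (w1 s) s := by rw [hvw']; exact hwd
  have hdv : deriv v = w1 := funext fun s => (hvd s).deriv
  have hdw : deriv w1 = g := funext fun s => (hw1d s).deriv
  constructor
  · rw [contDiff_infty]
    intro n
    induction n with
    | zero => exact contDiff_zero.2 hv
    | succ n ih =>
      have hgn : ContDiff ℝ n g := by
        rw [hg]
        exact ((Complex.ofRealCLM.contDiff.comp (hV.of_le (by exact_mod_cast le_top))).sub
          contDiff_const).mul ih
      have hwn : ContDiff ℝ (n + 1) w1 := by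
        rw [contDiff_succ_iff_deriv]
        refine ⟨fun s => (hw1d s).differentiableAt, fun h => ?_, by rw [hdw]; exact hgn⟩
        exact absurd h (by simp)
      have hvn : ContDiff ℝ (n + 1) v := by
        rw [contDiff_succ_iff_deriv]
        refine ⟨fun s => (hvd s).differentiableAt, fun h => ?_, by
          rw [hdv]; exact hwn.of_le (by exact_mod_cast Nat.le_succ n)⟩
        exact absurd h (by simp)
      exact_mod_cast hvn
  · constructor
    · intro s
      rw [hdv]
      exact hvd s
    · intro s
      rw [hdv]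
      have h1 := hw1d s
      rw [hg] at h1
      exact h1

end Pool.Agent.KACG.H88
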